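import Mathlib

/-!
# Involution on p-convolvers of groups with free subgroups: statements (helper557, idea with helper239)

`f = Σ_{i<n, j<m} δ_{a^i b^j}` has `p`-convolver norm at most about `n^{1/p} m + n m^{1-1/p}`, and `f^*` has norm
at least `n m^{1/p} / 2` and at least `m n^{1-1/p} / 2`, when `a, b` play ping-pong.
-/

set_option autoImplicit false

namespace Pool.Agent.N557.CV

open scoped ENNReal
open Classical in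
/-- the number of pairs `(i,j)`, `i < n`, `j < m`, with `a^i b^j = g` -/
noncomputable def cnt {G : Type*} [Group G] (a b : G) (n m : ℕ) (g : G) : ℝ≥0∞ :=
  ∑ i ∈ Finset.range n, ∑ j ∈ Finset.range m, if a ^ i * b ^ j = g then 1 else 0

/-- convolution of nonnegative functions -/
noncomputable def cv {G : Type*} [Group G] (F ξ : G → ℝ≥0∞) (x : G) : ℝ≥0∞ :=
  ∑' y, F (x * y⁻¹) * ξ y

/-- ping-pong: nonzero powers of `a` map the complement of `P` into `P`, nonzero powers of `b` map `P` into its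
complement -/
def PP {G : Type*} [Group G] (a b : G) (P : G → Prop) : Prop :=
  (∀ (k : ℤ) (x : G), k ≠ 0 → ¬ P x → P (a ^ k * x)) ∧
    ∀ (k : ℤ) (x : G), k ≠ 0 → P x → ¬ P (b ^ k * x)

/-- leaf PP: a free subgroup gives ping-pong -/
def S_PP : Prop := ∀ (G : Type) [Group G] (φ : FreeGroup (Fin 2) →* G), Function.Injective φ →
  ∃ P : G → Prop, PP (φ (FreeGroup.of 0)) (φ (FreeGroup.of 1)) P

/-- leaf CNT -/
def S_CNT : Prop := ∀ (G : Type) [Group G] (a b : G) (n m : ℕ) (ξ : G → ℝ≥0∞) (x : G),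
  cv (cnt a b n m) ξ x =
    ∑ i ∈ Finset.range n, ∑ j ∈ Finset.range m, ξ ((b ^ j)⁻¹ * ((a ^ i)⁻¹ * x))

/-- leaf UB: upper bound for the norm of `f` -/
def S_UB : Prop := ∀ (G : Type) [Group G] (a b : G) (P : G → Prop), PP a b P →
  ∀ (p : ℝ), 1 < p → ∀ (n m : ℕ) (ξ : G → ℝ≥0∞),
    ∑' x, (∑ i ∈ Finset.range n, ∑ j ∈ Finset.range m, ξ ((b ^ j)⁻¹ * ((a ^ i)⁻¹ * x))) ^ p ≤
      2 ^ (p - 1) * ((n : ℝ≥0∞) * (m : ℝ≥0∞) ^ p + (n : ℝ≥0∞) ^ p * (m : ℝ≥0∞) ^ (p - 1)) *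
        ∑' x, ξ x ^ p

open Classical in
/-- leaf LBA: first lower bound for the norm of `f^*` -/
def S_LBA : Prop := ∀ (G : Type) [Group G] (a b : G) (P : G → Prop), PP a b P →
  ∀ (p : ℝ), 1 < p → ∀ (n m : ℕ), 0 < n → 0 < m → ∃ I : Finset G, I.Nonempty ∧
    (m : ℝ≥0∞) * (n : ℝ≥0∞) ^ p * (I.card : ℝ≥0∞) ≤
      2 * ∑' x, (∑ i ∈ Finset.range n, ∑ j ∈ Finset.range m,
        if a ^ i * b ^ j * x ∈ I then (1 : ℝ≥0∞) else 0) ^ p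

open Classical in
/-- leaf LBB: second lower bound for the norm of `f^*` -/
def S_LBB : Prop := ∀ (G : Type) [Group G] (a b : G) (P : G → Prop), PP a b P →
  ∀ (p : ℝ), 1 < p → ∀ (n m : ℕ), 0 < n → 0 < m → ∃ I : Finset G, I.Nonempty ∧
    (m : ℝ≥0∞) ^ p * (n : ℝ≥0∞) ^ (p - 1) * (I.card : ℝ≥0∞) ≤
      2 * ∑' x, (∑ i ∈ Finset.range n, ∑ j ∈ Finset.range m,
        if a ^ i * b ^ j * x ∈ I then (1 : ℝ≥0∞) else 0) ^ p

/-- leaf NUM: for `p < 2` -/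
def S_NUMA : Prop := ∀ p : ℝ, 1 < p → p < 2 → ∀ K : ℕ, ∃ n m : ℕ, 0 < n ∧ 0 < m ∧
  (K : ℝ≥0∞) * ((n : ℝ≥0∞) * (m : ℝ≥0∞) ^ p + (n : ℝ≥0∞) ^ p * (m : ℝ≥0∞) ^ (p - 1)) ≤
    (m : ℝ≥0∞) * (n : ℝ≥0∞) ^ p

/-- leaf NUM: for `2 < p` -/
def S_NUMB : Prop := ∀ p : ℝ, 2 < p → ∀ K : ℕ, ∃ n m : ℕ, 0 < n ∧ 0 < m ∧
  (K : ℝ≥0∞) * ((n : ℝ≥0∞) * (m : ℝ≥0∞) ^ p + (n : ℝ≥0∞) ^ p * (m : ℝ≥0∞) ^ (p - 1)) ≤
    (m : ℝ≥0∞) ^ p * (n : ℝ≥0∞) ^ (p - 1)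

/-- leaf JEN: Jensen's inequality for a series -/
def S_JEN : Prop := ∀ (p : ℝ), 1 < p → ∀ (w y : ℕ → ℝ≥0∞), ∑' k, w k ≤ 1 →
  (∑' k, w k * y k) ^ p ≤ ∑' k, w k * y k ^ p

end Pool.Agent.N557.CV
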